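import Pool.Agent.Q35.ZC.Stm

set_option autoImplicit false

namespace Pool.Agent.Q26.ZC

open Polynomial Pool.Agent.Y720.MZ Pool.Agent.Q35.ZC

theorem inj : S_INJ := by
  intro F _ _ θ hw
  have h2 : (2 : F) ≠ 0 := two_ne_zero
  have h4 : (4 : F) ≠ 0 := by norm_num
  have hNX : Nf θ.1 (θ.2 0) (θ.2 1) (tX θ) = 0 := by
    unfold Nf tX xs
    field_simp
    ring
  have hDX : ∀ y : F, Df θ.1 (θ.2 0) (θ.2 2) (tX θ) y = 2 * θ.1 * (y - tY θ) := by
    intro y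
    have h5 : 2 * θ.1 * tY θ = θ.2 0 * tX θ + 2 * θ.1 ^ 2 * θ.2 2 := by
      unfold tY ys tX
      field_simp
    unfold Df
    linear_combination h5
  refine ⟨fun x y h hd => ⟨?_, ?_⟩, fun x y x' y' hx hd hd' ht hY => ?_, fun hY => ?_⟩
  · have h5 := Yf_eqn (q₂ := θ.2 1) (q₄ := θ.2 3) hw h hd
    unfold yq tq
    rw [h5]
    simp only [Pool.Agent.Q35.ZC.qp, eval_add, eval_mul, eval_C, eval_X, eval_pow]
  · unfold yq Yf tq
    simp only [gp, eval_add, eval_mul, eval_C, eval_X, eval_pow]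
    field_simp
    ring
  · have hN0 : Nf θ.1 (θ.2 0) (θ.2 1) x ≠ 0 := by
      intro h0
      apply hx
      have h6 : Nf θ.1 (θ.2 0) (θ.2 1) x - Nf θ.1 (θ.2 0) (θ.2 1) (tX θ) = 4 * θ.1 ^ 2 * (x - tX θ) := by
        unfold Nf
        ring
      rw [h0, hNX, sub_zero] at h6
      have h7 := (mul_eq_zero.1 h6.symm).resolve_left (mul_ne_zero h4 (pow_ne_zero 2 hw))
      exact sub_eq_zero.1 h7
    have hd1 : Df θ.1 (θ.2 0) (θ.2 2) x y ≠ 0 := hd
    have hd2 : Df θ.1 (θ.2 0) (θ.2 2) x' y' ≠ 0 := hd'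
    have ht0 : tf θ.1 (θ.2 0) (θ.2 1) (θ.2 2) x y ≠ 0 := div_ne_zero hN0 hd1
    have ht' : tf θ.1 (θ.2 0) (θ.2 1) (θ.2 2) x y = tf θ.1 (θ.2 0) (θ.2 1) (θ.2 2) x' y' := ht
    have e1 : Nf θ.1 (θ.2 0) (θ.2 1) x =
        tf θ.1 (θ.2 0) (θ.2 1) (θ.2 2) x y * Df θ.1 (θ.2 0) (θ.2 2) x y := by
      unfold tf
      field_simp
    have e2 : Nf θ.1 (θ.2 0) (θ.2 1) x' =
        tf θ.1 (θ.2 0) (θ.2 1) (θ.2 2) x y * Df θ.1 (θ.2 0) (θ.2 2) x' y' := by
      rw [ht']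
      unfold tf
      field_simp
    have hY' : Yf θ.1 (θ.2 0) (θ.2 1) (θ.2 2) x y = Yf θ.1 (θ.2 0) (θ.2 1) (θ.2 2) x' y' := hY
    unfold Yf at hY'
    rw [← ht'] at hY'
    set t := tf θ.1 (θ.2 0) (θ.2 1) (θ.2 2) x y with htt
    have h8 : t ^ 2 * (x - x') = 0 := by
      have h9 := add_left_cancel hY'
      rw [div_left_inj' (mul_ne_zero h2 hw)] at h9
      linear_combination h9
    have hxx : x = x' := sub_eq_zero.1 ((mul_eq_zero.1 h8).resolve_left (pow_ne_zero 2 ht0))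
    subst hxx
    refine ⟨rfl, ?_⟩
    have h9 := mul_left_cancel₀ ht0 (e1.symm.trans e2)
    unfold Df at h9
    have h10 : 2 * θ.1 * (y - y') = 0 := by linear_combination h9
    exact sub_eq_zero.1 ((mul_eq_zero.1 h10).resolve_left (mul_ne_zero h2 hw))
  · have hd : dq θ (tX θ) (-tY θ) ≠ 0 := by
      unfold Pool.Agent.Q35.ZC.dq
      rw [hDX]
      refine mul_ne_zero (mul_ne_zero h2 hw) ?_
      intro h5
      apply hY
      have h6 : (2 : F) * tY θ = 0 := by linear_combination -h5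
      exact (mul_eq_zero.1 h6).resolve_left h2
    have ht : tf θ.1 (θ.2 0) (θ.2 1) (θ.2 2) (tX θ) (-tY θ) = 0 := by
      unfold tf
      rw [hNX, zero_div]
    refine ⟨hd, ht, ?_, ?_⟩
    · unfold yq Yf
      rw [ht]
      simp
    · unfold Pool.Agent.Q35.ZC.dq
      rw [hDX, sub_self, mul_zero]

end Pool.Agent.Q26.ZC
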